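import Pool.Agent.Helper44.MM.M2
import Pool.Agent.Helper96.MM.Maj

/-!
# MM-M2: Jensen for the kernel, with the majorant of M1
-/

open MeasureTheory Real Set Filter Topology

set_option autoImplicit false

namespace Pool.Agent.Helper44.MM

open Pool.Agent.Helper22.AE
open Pool.Agent.Helper92.MM
open Pool.Agent.Helper92.GC (dt sqa)
open Pool.Agent.Helper60.AD

/-- Jensen: the kernel has mass at most `20` (AE.C1 `k0_int`) -/
theorem Z_pow {L J M m n : ℕ} (hJ : 1 ≤ J) (hM : 1 ≤ M) {H₀ : ℝ → ℝ} (h0 : ContDiff ℝ 2 H₀) {β : ℝ} (hβ : 0 < β)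
    (b : ℝ → ℤ × ℤ → ℂ) (hbc : ∀ k, Continuous (fun α => b α k)) (hb : ∀ α k, ‖b α k‖ ≤ 1)
    (w : (Fin L → ℝ) × (Fin L → ℝ)) (R : ℝ) (c : ℝ × ℝ) :
    (∫ α in gd1, k0 β α * ‖Sc (Hw H₀ w) (blk n) (b α) R α c‖) ^ (2 * J) ≤
      20 ^ (2 * J) * ∫ α in gd1, k0 β α * Maj J M m (Hw H₀ w) n (b α) R α :=
  Z_pow_of hJ h0 hβ b hbc w R c fun α => Pool.Agent.Helper96.MM.Sc_maj hJ hM (Hw H₀ w) (b α) (hb α) R α c

end Pool.Agent.Helper44.MM
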