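import Pool.Agent.Helper92.MM.Defs
import Pool.Agent.Helper96.AD.A6
import Pool.Agent.Helper60.AD.Key

/-!
# MM-M2: continuity and the trivial bound of the majorant; Jensen for the kernel
-/

open MeasureTheory Real Set Filter Topology

set_option autoImplicit false

namespace Pool.Agent.Helper44.MM

open Pool.Agent.Helper22.AE
open Pool.Agent.Helper92.MM
open Pool.Agent.Helper92.GC (dt sqa)
open Pool.Agent.Helper60.AD

theorem Maj_cont {L : ℕ} (J M m n : ℕ) {H₀ : ℝ → ℝ} (h0 : ContDiff ℝ 2 H₀) (b : ℝ → ℤ × ℤ → ℂ)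
    (hb : ∀ k, Continuous (fun α => b α k)) :
    Continuous (fun q : (ℝ × ℝ) × ((Fin L → ℝ) × (Fin L → ℝ)) => Maj J M m (Hw H₀ q.2) n (b q.1.2) q.1.1 q.1.2) := by
  unfold Maj Vs
  refine continuous_const.mul (continuous_const.add (continuous_finsetSum _ (fun s _ => ?_)))
  refine continuous_finsetSum _ (fun j _ => continuous_finsetSum _ (fun a _ => continuous_const.mul ?_))
  exact Pool.Agent.Helper96.AD.Yq_cont h0 (arcs n s j a) (fun _ => b) (fun _ k => hb k)

theorem Maj_bdd (J M m n : ℕ) : ∃ C : ℝ, ∀ (h : ℝ → ℝ) (b : ℤ × ℤ → ℂ), (∀ k, ‖b k‖ ≤ 1) → ∀ R α : ℝ,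
    0 ≤ Maj J M m h n b R α ∧ Maj J M m h n b R α ≤ C := by
  refine ⟨Aj J M m ^ (2 * J) * (Dc (2 ^ n) M m ^ (2 * J) + ∑ s ∈ Finset.range m,
    ∑ j ∈ Finset.range (8 * M ^ s), ∑ a ∈ gapT J M, ((fq (arcs n s j a)).card : ℝ) *
      (∏ t, ((arcs n s j a t).card : ℝ)) ^ 2), fun h b hb R α => ?_⟩
  have hA : 0 ≤ Aj J M m ^ (2 * J) := by rw [pow_mul]; positivity
  have hD : 0 ≤ Dc (2 ^ n) M m ^ (2 * J) := by rw [pow_mul]; positivity
  have hY := fun s j (a : Fin J → Fin M) =>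
    Pool.Agent.Helper96.AD.Yq_le h (arcs n s j a) (fun _ => b) (fun _ k _ => hb k) R α
  unfold Maj Vs
  constructor
  · refine mul_nonneg hA (add_nonneg hD (Finset.sum_nonneg fun s _ => Finset.sum_nonneg fun j _ =>
      Finset.sum_nonneg fun a _ => mul_nonneg (Nat.cast_nonneg _) (hY s j a).1))
  · refine mul_le_mul_of_nonneg_left (add_le_add le_rfl (Finset.sum_le_sum fun s _ =>
      Finset.sum_le_sum fun j _ => Finset.sum_le_sum fun a _ => ?_)) hA
    exact mul_le_mul_of_nonneg_left (hY s j a).2 (Nat.cast_nonneg _)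

theorem gd1_meas : MeasurableSet gd1 :=
  measurableSet_Icc.inter (measurableSet_le measurable_const (by fun_prop))

theorem intOn {g : ℝ → ℝ} (hg : Continuous g) : IntegrableOn g gd1 :=
  (hg.continuousOn.integrableOn_compact isCompact_Icc).mono_set inter_subset_left

theorem k0_gd1 {β : ℝ} (hβ : 0 < β) : ∫ α in gd1, k0 β α ≤ 20 := by
  have hc := k0_cont' hβ
  have h1 : ∫ α in gd1, k0 β α ≤ ∫ α in Icc (-π) π, k0 β α := by
    refine setIntegral_mono_set (hc.continuousOn.integrableOn_compact isCompact_Icc)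
      (ae_of_all _ fun α => k0_nonneg' hβ α) (ae_of_all _ fun α hα => hα.1)
  have h2 : ∫ α in Icc (-π) π, k0 β α = ∫ α in (-π)..π, k0 β α := by
    rw [intervalIntegral.integral_of_le (by linarith [pi_pos]), integral_Icc_eq_integral_Ioc]
  rw [h2] at h1
  exact h1.trans (k0_int hβ)

/-- Jensen for a kernel of mass at most `20` -/
theorem jensen {β : ℝ} (hβ : 0 < β) {f : ℝ → ℝ} (hf : Continuous f) (hf0 : ∀ α, 0 ≤ f α) {m : ℕ} (hm : 1 ≤ m) :
    (∫ α in gd1, k0 β α * f α) ^ m ≤ 20 ^ (m - 1) * ∫ α in gd1, k0 β α * f α ^ m := by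
  have hc := k0_cont' hβ
  have hk0 := fun α => k0_nonneg' hβ α
  set I := ∫ α in gd1, k0 β α * f α with hI
  set K := ∫ α in gd1, k0 β α with hK
  have hK20 : K ≤ 20 := k0_gd1 hβ
  have hI0 : 0 ≤ I := setIntegral_nonneg gd1_meas fun α _ => mul_nonneg (hk0 α) (hf0 α)
  have hS0 : 0 ≤ ∫ α in gd1, k0 β α * f α ^ m :=
    setIntegral_nonneg gd1_meas fun α _ => mul_nonneg (hk0 α) (pow_nonneg (hf0 α) m)
  rcases hI0.eq_or_lt with h | h
  · rw [← h, zero_pow (by omega)]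
    positivity
  set a := I / 20 with ha
  have ha0 : 0 < a := by positivity
  have htan : ∀ t : ℝ, 0 ≤ t → a ^ m + m * a ^ (m - 1) * (t - a) ≤ t ^ m := by
    intro t ht
    have h1 : -2 ≤ t / a - 1 := by
      have : 0 ≤ t / a := by positivity
      linarith
    have h2 := one_add_mul_le_pow h1 m
    have h3 : 1 + (t / a - 1) = t / a := by ring
    rw [h3, div_pow] at h2
    have h4 := mul_le_mul_of_nonneg_left h2 (pow_nonneg ha0.le m)
    have h5 : a ^ m * (t ^ m / a ^ m) = t ^ m := by field_simp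
    rw [h5] at h4
    refine le_trans (le_of_eq ?_) h4
    have h6 : a ^ m = a ^ (m - 1) * a := by
      rw [← pow_succ]
      congr 1
      omega
    rw [h6]
    field_simp
  have hint : ∫ α in gd1, k0 β α * (a ^ m + m * a ^ (m - 1) * (f α - a)) ≤ ∫ α in gd1, k0 β α * f α ^ m := by
    refine setIntegral_mono_on (intOn (by fun_prop)) (intOn (by fun_prop)) gd1_meas fun α _ => ?_
    exact mul_le_mul_of_nonneg_left (htan _ (hf0 α)) (hk0 α)
  have heq : ∫ α in gd1, k0 β α * (a ^ m + m * a ^ (m - 1) * (f α - a)) =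
      (a ^ m - m * a ^ (m - 1) * a) * K + m * a ^ (m - 1) * I := by
    have e : (fun α => k0 β α * (a ^ m + m * a ^ (m - 1) * (f α - a))) =
        fun α => (a ^ m - m * a ^ (m - 1) * a) * k0 β α + m * a ^ (m - 1) * (k0 β α * f α) := by
      funext α
      ring
    rw [e, integral_add ((intOn (by fun_prop))) ((intOn (by fun_prop))), integral_const_mul, integral_const_mul]
  rw [heq] at hint
  have h6 : a ^ m = a ^ (m - 1) * a := by
    rw [← pow_succ]
    congr 1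
    omega
  have hm1 : (1 : ℝ) ≤ m := by exact_mod_cast hm
  have h7 : 20 * a ^ m ≤ (a ^ m - m * a ^ (m - 1) * a) * K + m * a ^ (m - 1) * I := by
    have hIa : I = 20 * a := by rw [ha]; ring
    rw [hIa, h6]
    have h8 : 0 ≤ a ^ (m - 1) * a := by positivity
    nlinarith [mul_nonneg (mul_nonneg h8 (sub_nonneg.2 hm1)) (sub_nonneg.2 hK20)]
  have h9 : 20 * a ^ m ≤ ∫ α in gd1, k0 β α * f α ^ m := h7.trans hint
  have h10 : I ^ m = 20 ^ (m - 1) * (20 * a ^ m) := by
    have : I = 20 * a := by rw [ha]; ring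
    rw [this, mul_pow, ← mul_assoc, ← pow_succ]
    congr 2
    omega
  rw [h10]
  exact mul_le_mul_of_nonneg_left h9 (by positivity)

/-- `Z_pow` from the majorant -/
theorem Z_pow_of {L J M m n : ℕ} (hJ : 1 ≤ J) {H₀ : ℝ → ℝ} (h0 : ContDiff ℝ 2 H₀) {β : ℝ} (hβ : 0 < β)
    (b : ℝ → ℤ × ℤ → ℂ) (hbc : ∀ k, Continuous (fun α => b α k))
    (w : (Fin L → ℝ) × (Fin L → ℝ)) (R : ℝ) (c : ℝ × ℝ)
    (hmaj : ∀ α, ‖Sc (Hw H₀ w) (blk n) (b α) R α c‖ ^ (2 * J) ≤ Maj J M m (Hw H₀ w) n (b α) R α) :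
    (∫ α in gd1, k0 β α * ‖Sc (Hw H₀ w) (blk n) (b α) R α c‖) ^ (2 * J) ≤
      20 ^ (2 * J) * ∫ α in gd1, k0 β α * Maj J M m (Hw H₀ w) n (b α) R α := by
  have hc := k0_cont' hβ
  have hk0 := fun α => k0_nonneg' hβ α
  have hS := (Sc_cont h0 w (blk n) b hbc R c).norm
  have hM : Continuous (fun α : ℝ => Maj J M m (Hw H₀ w) n (b α) R α) := by
    have h1 : Continuous (fun α : ℝ => (((R, α) : ℝ × ℝ), w)) := by fun_prop
    have h2 := (Maj_cont (L := L) J M m n h0 b hbc).comp h1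
    simp only [Function.comp_def] at h2
    exact h2
  have hM0 : ∀ α, 0 ≤ Maj J M m (Hw H₀ w) n (b α) R α := fun α => (pow_nonneg (norm_nonneg _) _).trans (hmaj α)
  have h1 := jensen hβ hS (fun α => norm_nonneg _) (m := 2 * J) (by omega)
  have h2 : ∫ α in gd1, k0 β α * ‖Sc (Hw H₀ w) (blk n) (b α) R α c‖ ^ (2 * J) ≤
      ∫ α in gd1, k0 β α * Maj J M m (Hw H₀ w) n (b α) R α :=
    setIntegral_mono_on (intOn (by fun_prop)) (intOn (by fun_prop)) gd1_meas fun α _ =>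
      mul_le_mul_of_nonneg_left (hmaj α) (hk0 α)
  have h3 : 0 ≤ ∫ α in gd1, k0 β α * Maj J M m (Hw H₀ w) n (b α) R α :=
    setIntegral_nonneg gd1_meas fun α _ => mul_nonneg (hk0 α) (hM0 α)
  refine h1.trans ((mul_le_mul_of_nonneg_left h2 (by positivity)).trans ?_)
  exact mul_le_mul_of_nonneg_right (pow_le_pow_right₀ (by norm_num) (by omega)) h3

end Pool.Agent.Helper44.MM
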